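import Pool.Agent.H95.Ach

set_option autoImplicit false

open Pool.Agent.H95.Ach

theorem Pool.Agent.Results.MP_de5a3f_an.Exists.result :
    ∃ 𝓕 : Cover, ∀ H : Set (List Bool), ¬HasC0 (UniformSpace.Completion (C00 𝓕 H)) ↔
      ∃ (m : ℕ) (A : Fin m → Set (List Bool)), (∀ i, IsAntichain (· <+: ·) (A i)) ∧ H = ⋃ i, A i :=
  main
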